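import Pool.Agent.Helper79.IV.Defs
set_option autoImplicit false
open Complex Metric Set Filter Topology Real

/-!
# CK-IV-CTA: the Cauchy transform: derivative, bounds, linearity

`CT f r H w = (2πi)⁻¹ ∮ H f' / (f - w)` on the circle of radius `r`, `w` not on the image of the
circle. `deriv f` is continuous on the open disc (`DifferentiableOn.deriv` on the open ball), so all
integrands are continuous on the circle. `CT_hasDerivAt`: differentiation under the integral sign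
(`intervalIntegral.hasDerivAt_integral_of_dominated_loc_of_deriv_le`): by compactness
`δ ≤ ‖f s - w‖` on the circle for some `δ > 0`, and the derivative `H f' / (f - w')²` is bounded for
`w'` in the ball of radius `δ / 2` around `w`. Bounds: `circleIntegral.norm_two_pi_i_inv_smul_...`
or `circleIntegral.norm_integral_le_of_norm_le_const`. `CT_lip`: the difference of the integrands is
`(w₁ - w₂) H f' / ((f - w₁) (f - w₂))`.
-/

namespace Pool.Agent.Helper79.IV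

theorem CT_hasDerivAt {f H : ℂ → ℂ} {r : ℝ} (hf : DifferentiableOn ℂ f (ball 0 1)) (hr : 0 < r)
    (hr1 : r < 1) (hH : ContinuousOn H (sphere 0 r)) {w : ℂ}
    (hw : ∀ s ∈ sphere (0:ℂ) r, f s ≠ w) :
    HasDerivAt (CT f r H) ((2 * π * I)⁻¹ * ∮ s in C(0, r), H s * deriv f s / (f s - w) ^ 2) w := by
  sorry

theorem CT_norm_le {f H : ℂ → ℂ} {r : ℝ} (hr : 0 < r) {w : ℂ} {M D c : ℝ} (hc : 0 < c)
    (hM : ∀ s ∈ sphere (0:ℂ) r, ‖H s‖ ≤ M) (hD : ∀ s ∈ sphere (0:ℂ) r, ‖deriv f s‖ ≤ D)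
    (hw : ∀ s ∈ sphere (0:ℂ) r, c ≤ ‖f s - w‖) : ‖CT f r H w‖ ≤ r * (M * D / c) := by
  sorry

theorem CT_deriv_le {f H : ℂ → ℂ} {r : ℝ} (hf : DifferentiableOn ℂ f (ball 0 1)) (hr : 0 < r)
    (hr1 : r < 1) (hH : ContinuousOn H (sphere 0 r)) {w : ℂ} {M D c : ℝ} (hc : 0 < c)
    (hM : ∀ s ∈ sphere (0:ℂ) r, ‖H s‖ ≤ M) (hD : ∀ s ∈ sphere (0:ℂ) r, ‖deriv f s‖ ≤ D)
    (hw : ∀ s ∈ sphere (0:ℂ) r, c ≤ ‖f s - w‖) :
    ‖deriv (CT f r H) w‖ ≤ r * (M * D / c ^ 2) := by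
  sorry

theorem CT_lip {f H : ℂ → ℂ} {r : ℝ} (hf : DifferentiableOn ℂ f (ball 0 1)) (hr : 0 < r)
    (hr1 : r < 1) (hH : ContinuousOn H (sphere 0 r)) {w₁ w₂ : ℂ} {M D c : ℝ} (hc : 0 < c)
    (hM : ∀ s ∈ sphere (0:ℂ) r, ‖H s‖ ≤ M) (hD : ∀ s ∈ sphere (0:ℂ) r, ‖deriv f s‖ ≤ D)
    (hw₁ : ∀ s ∈ sphere (0:ℂ) r, c ≤ ‖f s - w₁‖) (hw₂ : ∀ s ∈ sphere (0:ℂ) r, c ≤ ‖f s - w₂‖) :
    ‖CT f r H w₁ - CT f r H w₂‖ ≤ r * (M * D / c ^ 2) * ‖w₁ - w₂‖ := by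
  sorry

theorem CT_sub {f H K : ℂ → ℂ} {r : ℝ} (hf : DifferentiableOn ℂ f (ball 0 1)) (hr : 0 < r)
    (hr1 : r < 1) (hH : ContinuousOn H (sphere 0 r)) (hK : ContinuousOn K (sphere 0 r)) {w : ℂ}
    (hw : ∀ s ∈ sphere (0:ℂ) r, f s ≠ w) :
    CT f r (fun s => H s - K s) w = CT f r H w - CT f r K w := by
  sorry

theorem CT_add {f H K : ℂ → ℂ} {r : ℝ} (hf : DifferentiableOn ℂ f (ball 0 1)) (hr : 0 < r)
    (hr1 : r < 1) (hH : ContinuousOn H (sphere 0 r)) (hK : ContinuousOn K (sphere 0 r)) {w : ℂ}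
    (hw : ∀ s ∈ sphere (0:ℂ) r, f s ≠ w) :
    CT f r (fun s => H s + K s) w = CT f r H w + CT f r K w := by
  sorry

theorem CT_const_mul {f H : ℂ → ℂ} {r : ℝ} (c w : ℂ) :
    CT f r (fun s => c * H s) w = c * CT f r H w := by
  sorry

theorem CT_congr {f H K : ℂ → ℂ} {r : ℝ} (hr : 0 < r) (h : ∀ s ∈ sphere (0:ℂ) r, H s = K s)
    (w : ℂ) : CT f r H w = CT f r K w := by
  sorry

end Pool.Agent.Helper79.IV
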