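import Pool.Agent.Helper79.IV.Defs
set_option autoImplicit false
open Complex Metric Set Filter Topology Real

/-!
# CK-IV-CTB: the Cauchy transform: Cauchy's formulas

`f` is injective and holomorphic on the unit disc. For `z` in the disc, `dslope f z s` =
`(f s - f z) / (s - z)` is holomorphic in `s` (`DifferentiableOn.dslope...`,
`differentiableOn_dslope`) and has no zero (injectivity; `f' z ≠ 0` by
`Pool.Agent.Helper24.Br.deriv_ne_of_inj`, see `Helper84/EK/Koebe.lean`). So the integrand is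
`Y s / (s - z)` with `Y s = H s * deriv f s / dslope f z s`, `Y z = H z`.
`CT_inside`: Cauchy's formula for the disc. `CT_outside`: Cauchy's theorem
(`circleIntegral_eq_zero_of_differentiable_on_off_countable`, `DiffContOnCl`), the integrand is
holomorphic on the closed disc. `CT_annulus`: `Y s / (s - z) = dslope Y z s + Y z / (s - z)` with
`dslope Y z` holomorphic in the annulus; its integrals over the two circles are equal
(`Complex.circleIntegral_sub_center_inv_smul_eq_of_differentiable_on_annulus_off_countable` with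
`s • dslope Y z s`, or the version without the factor), and the integral of `1 / (s - z)` is `2πi`
over the circle of radius `r₁` and `0` over the circle of radius `r₀`.
`CT_inv`: partial fractions `1 / (f (f - w)) = (1 / w) (1 / (f - w) - 1 / f)` and `CT_outside`,
`CT_inside` for `H = 1`.
-/

namespace Pool.Agent.Helper79.IV

theorem CT_inside {f H : ℂ → ℂ} {r R : ℝ} (hf : SU f) (hrR : r < R) (hR : R ≤ 1)
    (hH : DifferentiableOn ℂ H (ball 0 R)) {z : ℂ} (hz : ‖z‖ < r) : CT f r H (f z) = H z := by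
  sorry

theorem CT_outside {f H : ℂ → ℂ} {r R : ℝ} (hf : SU f) (hr : 0 < r) (hrR : r < R) (hR : R ≤ 1)
    (hH : DifferentiableOn ℂ H (ball 0 R)) {w : ℂ} (hw : ∀ s ∈ closedBall (0:ℂ) r, f s ≠ w) :
    CT f r H w = 0 := by
  sorry

theorem CT_annulus {f H : ℂ → ℂ} {a r₀ r₁ R : ℝ} (hf : SU f) (ha : 0 ≤ a) (h0 : a < r₀)
    (h1 : r₁ < R) (hR : R ≤ 1) (hH : DifferentiableOn ℂ H (ball 0 R \ closedBall 0 a)) {z : ℂ}
    (hz0 : r₀ < ‖z‖) (hz1 : ‖z‖ < r₁) : CT f r₁ H (f z) - CT f r₀ H (f z) = H z := by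
  sorry

theorem CT_inv {f : ℂ → ℂ} {r : ℝ} (hf : SU f) (hr : 0 < r) (hr1 : r < 1) {w : ℂ}
    (hw : ∀ s ∈ closedBall (0:ℂ) r, f s ≠ w) :
    CT f r (fun s => (f s)⁻¹) w = -w⁻¹ := by
  sorry

end Pool.Agent.Helper79.IV
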