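import Mathlib
set_option autoImplicit false
open Complex Metric Set Filter Topology Real

/-! Project CK, interior variation (IV): definitions. -/

namespace Pool.Agent.Helper79.IV

/-- normalised univalent functions in the unit disc -/
structure SU (f : ℂ → ℂ) : Prop where
  diff : DifferentiableOn ℂ f (ball 0 1)
  inj : InjOn f (ball 0 1)
  zero : f 0 = 0
  one : deriv f 0 = 1

/-- the square root -/
noncomputable def rt (x : ℂ) : ℂ := Complex.exp (Complex.log x / 2)

/-- the map with `psi β z ^ 2 = (z ^ 2 + β) / (1 + conj β * z ^ 2)` -/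
noncomputable def psi (β z : ℂ) : ℂ :=
  z * (rt (1 + β / z ^ 2) / rt (1 + (starRingEnd ℂ) β * z ^ 2))

/-- the Cauchy transform with the kernel `f' s / (f s - w)` on the circle of radius `r` -/
noncomputable def CT (f : ℂ → ℂ) (r : ℝ) (H : ℂ → ℂ) (w : ℂ) : ℂ :=
  (2 * π * I)⁻¹ * ∮ s in C(0, r), H s * deriv f s / (f s - w)

end Pool.Agent.Helper79.IV
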