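import Pool.Agent.Helper79.IV.Defs
import Pool.Agent.Helper69.EK3.Univ
set_option autoImplicit false
open Complex Metric Set Filter Topology Real

/-!
# CK-IV-DIST: crude distortion estimates for normalised univalent functions

`dist_deriv`: `bieb_r` (Helper69/EK3/Univ.lean) at `z` with the radius `1 - ‖z‖` gives
`‖f'' z‖ * (1 - ‖z‖) ≤ 4 * ‖f' z‖`, so on the segment from `0` to `z` (`‖z‖ ≤ 3/4`) the function
`t ↦ ‖f' (t z)‖` satisfies `|derivative of log| ≤ 4 ‖z‖ / (1 - t ‖z‖)`, integral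
`4 * log (1 / (1 - ‖z‖)) ≤ 4 * log 4`, so `4 ^ (-4) ≤ ‖f' z‖ ≤ 4 ^ 4`. (For instance: the function
`t ↦ f' (t z) * (1 - t ‖z‖) ^ 4` resp. its inverse has a norm which is nonincreasing; or use a
holomorphic logarithm of `f'` on the ball; `f' ≠ 0` by `Helper24.Br.deriv_ne_of_inj`.)
`dist_val`: mean value inequality. `dist_sep`: `koebe_r` (Helper84/EK/Koebe.lean) for
`u ↦ f (s + u) - f z` on `ball 0 d`, which has no zeros there. `dist_two`: `dist_sep` with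
`d = min ‖a - b‖ (1/4)`.
-/

namespace Pool.Agent.Helper79.IV

theorem dist_deriv {f : ℂ → ℂ} (hf : SU f) {z : ℂ} (hz : ‖z‖ ≤ 3 / 4) :
    1 / 256 ≤ ‖deriv f z‖ ∧ ‖deriv f z‖ ≤ 256 := by
  sorry

theorem dist_val {f : ℂ → ℂ} (hf : SU f) {z : ℂ} (hz : ‖z‖ ≤ 3 / 4) : ‖f z‖ ≤ 192 := by
  sorry

theorem dist_sep {f : ℂ → ℂ} (hf : SU f) {s z : ℂ} {d : ℝ} (hs : ‖s‖ ≤ 3 / 4) (hz : ‖z‖ < 1)
    (hd : 0 < d) (hd1 : ‖s‖ + d ≤ 1) (h : d ≤ ‖z - s‖) : d / 1024 ≤ ‖f s - f z‖ := by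
  sorry

theorem dist_two {f : ℂ → ℂ} (hf : SU f) {a b : ℂ} (ha : ‖a‖ ≤ 3 / 4) (hb : ‖b‖ ≤ 3 / 4) :
    ‖a - b‖ / 8192 ≤ ‖f a - f b‖ := by
  sorry

end Pool.Agent.Helper79.IV
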