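import Pool.Agent.Helper79.IV.Defs
set_option autoImplicit false
open Complex Metric Set Filter Topology Real

/-!
# CK-IV-EVEN: an even holomorphic function is a holomorphic function of `z ^ 2`

`a u := A (rt u)` for `u ≠ 0`, `a 0 := A 0`. At `u₀ ≠ 0` use the local branch
`u ↦ rt u₀ * rt (u / u₀)` (holomorphic near `u₀`, its square is `u`, so it is `± rt u`, and `A` is
even); `a` is continuous at `0` since `‖rt u‖ ^ 2 = ‖u‖`; so the singularity at `0` is removable
(`Complex.analyticAt_of_differentiable_on_punctured_nhds_of_continuousAt`).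
-/

namespace Pool.Agent.Helper79.IV

theorem Even_rt_sq {u : ℂ} (hu : u ≠ 0) : rt u ^ 2 = u := by
  unfold rt
  rw [← Complex.exp_nat_mul]
  have h : ((2 : ℕ) : ℂ) * (Complex.log u / 2) = Complex.log u := by
    push_cast
    ring
  rw [h, Complex.exp_log hu]

theorem Even_norm_rt {u : ℂ} (hu : u ≠ 0) : ‖rt u‖ ^ 2 = ‖u‖ := by
  rw [← norm_pow, Even_rt_sq hu]

theorem Even_diff {A : ℂ → ℂ} {R : ℝ} (hR : 0 < R) (hA : DifferentiableOn ℂ A (ball 0 R))
    (heven : ∀ z, A (-z) = A z) {u₀ : ℂ} (h0 : u₀ ≠ 0) (hu : ‖u₀‖ < R ^ 2) :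
    DifferentiableAt ℂ (fun u : ℂ => if u = 0 then A 0 else A (rt u)) u₀ := by
  have hr : DifferentiableAt ℂ (fun u : ℂ => rt u₀ * rt (u / u₀)) u₀ := by
    unfold rt
    refine DifferentiableAt.const_mul ?_ _
    refine DifferentiableAt.cexp ?_
    refine DifferentiableAt.div_const ?_ _
    refine DifferentiableAt.clog (differentiableAt_id.div_const _) ?_
    change id u₀ / u₀ ∈ Complex.slitPlane
    rw [id_eq, div_self h0]
    exact Complex.one_mem_slitPlane
  have hval : rt u₀ * rt (u₀ / u₀) = rt u₀ := by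
    rw [div_self h0]
    unfold rt
    rw [Complex.log_one, zero_div, Complex.exp_zero, mul_one]
  have hmem : rt u₀ ∈ ball (0 : ℂ) R := by
    rw [mem_ball_zero_iff]
    refine lt_of_pow_lt_pow_left₀ 2 hR.le ?_
    rw [Even_norm_rt h0]
    exact hu
  have hA' : DifferentiableAt ℂ A (rt u₀ * rt (u₀ / u₀)) := by
    rw [hval]
    exact hA.differentiableAt (isOpen_ball.mem_nhds hmem)
  have hcomp : DifferentiableAt ℂ (fun u : ℂ => A (rt u₀ * rt (u / u₀))) u₀ :=
    DifferentiableAt.comp (g := A) u₀ hA' hr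
  refine hcomp.congr_of_eventuallyEq ?_
  filter_upwards [isOpen_ne.mem_nhds h0] with u hu0
  rw [if_neg hu0]
  have h1 : rt u ^ 2 = (rt u₀ * rt (u / u₀)) ^ 2 := by
    rw [mul_pow, Even_rt_sq hu0, Even_rt_sq h0, Even_rt_sq (div_ne_zero hu0 h0),
      mul_div_cancel₀ _ h0]
  rcases sq_eq_sq_iff_eq_or_eq_neg.1 h1 with h | h
  · rw [h]
  · rw [h, heven]

theorem Even_tendsto : Tendsto rt (𝓝[≠] 0) (𝓝 0) := by
  rw [tendsto_zero_iff_norm_tendsto_zero]
  have h1 : Tendsto (fun u : ℂ => Real.sqrt ‖u‖) (𝓝[≠] 0) (𝓝 0) := by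
    have h2 : Tendsto (fun u : ℂ => Real.sqrt ‖u‖) (𝓝 0) (𝓝 (Real.sqrt ‖(0 : ℂ)‖)) :=
      (continuous_norm.sqrt).tendsto 0
    rw [norm_zero, Real.sqrt_zero] at h2
    exact h2.mono_left nhdsWithin_le_nhds
  refine h1.congr' ?_
  filter_upwards [self_mem_nhdsWithin] with u hu
  rw [← Even_norm_rt hu, Real.sqrt_sq (norm_nonneg _)]

theorem even_fun {A : ℂ → ℂ} {R : ℝ} (hR : 0 < R) (hA : DifferentiableOn ℂ A (ball 0 R))
    (heven : ∀ z, A (-z) = A z) :
    ∃ a : ℂ → ℂ, DifferentiableOn ℂ a (ball 0 (R ^ 2)) ∧ ∀ z ∈ ball (0:ℂ) R, a (z ^ 2) = A z := by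
  refine ⟨fun u => if u = 0 then A 0 else A (rt u), ?_, ?_⟩
  · intro u hu
    rw [mem_ball_zero_iff] at hu
    refine DifferentiableAt.differentiableWithinAt ?_
    by_cases h0 : u = 0
    · subst h0
      refine (Complex.analyticAt_of_differentiable_on_punctured_nhds_of_continuousAt ?_
        ?_).differentiableAt
      · have h1 : ball (0 : ℂ) (R ^ 2) ∈ 𝓝 (0 : ℂ) := ball_mem_nhds _ (pow_pos hR 2)
        filter_upwards [self_mem_nhdsWithin, mem_nhdsWithin_of_mem_nhds h1] with z hz hz2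
        exact Even_diff hR hA heven hz (mem_ball_zero_iff.1 hz2)
      · rw [← continuousWithinAt_compl_self]
        have hA0 : ContinuousAt A 0 :=
          (hA.differentiableAt (ball_mem_nhds _ hR)).continuousAt
        have h2 : Tendsto (fun u : ℂ => A (rt u)) (𝓝[≠] 0) (𝓝 (A 0)) :=
          hA0.tendsto.comp Even_tendsto
        change Tendsto (fun u : ℂ => if u = 0 then A 0 else A (rt u)) (𝓝[≠] 0)
          (𝓝 (if (0 : ℂ) = 0 then A 0 else A (rt 0)))
        rw [if_pos rfl]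
        refine h2.congr' ?_
        filter_upwards [self_mem_nhdsWithin] with z hz
        exact (if_neg hz).symm
    · exact Even_diff hR hA heven h0 hu
  · intro z _
    change (if z ^ 2 = 0 then A 0 else A (rt (z ^ 2))) = A z
    by_cases h0 : z = 0
    · subst h0
      rw [if_pos (by norm_num)]
    · have h1 : z ^ 2 ≠ 0 := pow_ne_zero 2 h0
      rw [if_neg h1]
      rcases sq_eq_sq_iff_eq_or_eq_neg.1 (Even_rt_sq h1) with h | h
      · rw [h]
      · rw [h, heven]

end Pool.Agent.Helper79.IV
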