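import Pool.Agent.Helper79.IV.Defs
set_option autoImplicit false
open Complex Metric Set Filter Topology Real

/-!
# CK-IV: the interior variation of a univalent function (helper79 writes this file)

`F (psi β z) = f z + g (f z)` outside a disc, `g w = (β / 2) / w + O(β²)`.
-/

namespace Pool.Agent.Helper79.IV

theorem iv : ∃ β₀ : ℝ, 0 < β₀ ∧ ∃ C : ℝ, 0 < C ∧ ∀ f : ℂ → ℂ, SU f → ∀ β : ℂ, ‖β‖ ≤ β₀ →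
    ∃ F g : ℂ → ℂ, DifferentiableOn ℂ F (ball 0 1) ∧ InjOn F (ball 0 1) ∧
      (∀ z, 1 / 8 < ‖z‖ → ‖z‖ < 1 → F (psi β z) = f z + g (f z)) ∧
      (∀ z, 1 / 4 ≤ ‖z‖ → ‖z‖ < 1 → DifferentiableAt ℂ g (f z) ∧
        ‖g (f z) - β / 2 / f z‖ ≤ C * ‖β‖ ^ 2 / ‖f z‖ ∧
        ‖deriv g (f z) + β / 2 / f z ^ 2‖ ≤ C * ‖β‖ ^ 2 / ‖f z‖ ^ 2) ∧
      (∀ z, ‖z‖ ≤ 1 / 2 → ‖F z - f z‖ ≤ C * ‖β‖ ∧ ‖deriv F z - deriv f z‖ ≤ C * ‖β‖) := by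
  sorry

end Pool.Agent.Helper79.IV
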