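import Pool.Agent.Helper79.IV.Defs
set_option autoImplicit false
open Complex Metric Set Filter Topology Real

/-! Project CK, interior variation (IV): the map `psi`. -/

namespace Pool.Agent.Helper79.IV

theorem rt_sq {x : ℂ} (hx : x ≠ 0) : rt x ^ 2 = x := by
  rw [rt, ← Complex.exp_nat_mul]
  have h : ((2 : ℕ) : ℂ) * (Complex.log x / 2) = Complex.log x := by
    push_cast
    ring
  rw [h, Complex.exp_log hx]

theorem rt_ne (x : ℂ) : rt x ≠ 0 := Complex.exp_ne_zero _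

theorem rt_re_nonneg (x : ℂ) : 0 ≤ (rt x).re := by
  rw [rt, Complex.exp_re]
  apply mul_nonneg (Real.exp_pos _).le
  apply Real.cos_nonneg_of_mem_Icc
  have h1 := Complex.neg_pi_lt_arg x
  have h2 := Complex.arg_le_pi x
  have h3 : (Complex.log x / 2).im = Complex.arg x / 2 := by
    rw [show (2 : ℂ) = ((2 : ℝ) : ℂ) by norm_num, Complex.div_ofReal_im, Complex.log_im]
  rw [h3]
  constructor <;> linarith

theorem rt_sub_one {x : ℂ} (hx : 1 + x ≠ 0) : ‖rt (1 + x) - 1‖ ≤ ‖x‖ := by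
  have h1 : (rt (1 + x) - 1) * (rt (1 + x) + 1) = x := by
    have := rt_sq hx
    linear_combination this
  have h2 : 1 ≤ ‖rt (1 + x) + 1‖ := by
    have h3 := rt_re_nonneg (1 + x)
    have h4 := Complex.re_le_norm (rt (1 + x) + 1)
    rw [Complex.add_re, Complex.one_re] at h4
    linarith
  calc ‖rt (1 + x) - 1‖ = ‖rt (1 + x) - 1‖ * 1 := (mul_one _).symm
    _ ≤ ‖rt (1 + x) - 1‖ * ‖rt (1 + x) + 1‖ := by gcongr
    _ = ‖x‖ := by rw [← norm_mul, h1]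

theorem rt_second {x : ℂ} (hx : 1 + x ≠ 0) : ‖rt (1 + x) - 1 - x / 2‖ ≤ ‖x‖ ^ 2 / 2 := by
  have h1 : rt (1 + x) - 1 - x / 2 = -((rt (1 + x) - 1) ^ 2 / 2) := by
    have := rt_sq hx
    linear_combination (1/2 : ℂ) * this
  have h2 := rt_sub_one hx
  rw [h1, norm_neg, norm_div, norm_pow]
  have h3 : ‖(2:ℂ)‖ = 2 := by simp
  rw [h3]
  have := norm_nonneg (rt (1 + x) - 1)
  gcongr

theorem one_add_ne {x : ℂ} (hx : ‖x‖ < 1) : 1 + x ≠ 0 := by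
  intro h
  have h1 : x = -1 := by linear_combination h
  rw [h1, norm_neg, norm_one] at hx
  exact lt_irrefl _ hx

theorem one_add_mem_slit {x : ℂ} (hx : ‖x‖ < 1) : 1 + x ∈ Complex.slitPlane := by
  left
  rw [Complex.add_re, Complex.one_re]
  have h1 := Complex.abs_re_le_norm x
  have h2 := neg_abs_le x.re
  linarith

theorem rt_differentiableAt {x : ℂ} (hx : x ∈ Complex.slitPlane) : DifferentiableAt ℂ rt x := by
  unfold rt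
  exact ((differentiableAt_id.clog hx).div_const 2).cexp

theorem norm_conj_mul_sq {β z : ℂ} (hβ : ‖β‖ ≤ 1 / 4096) (hz1 : ‖z‖ ≤ 1) :
    ‖(starRingEnd ℂ) β * z ^ 2‖ ≤ ‖β‖ := by
  rw [norm_mul, RCLike.norm_conj, norm_pow]
  have := norm_nonneg β
  have h2 : ‖z‖ ^ 2 ≤ 1 := by
    have := norm_nonneg z
    nlinarith
  nlinarith

theorem norm_div_sq {β z : ℂ} (hz0 : 1 / 16 ≤ ‖z‖) : ‖β / z ^ 2‖ ≤ 256 * ‖β‖ := by
  rw [norm_div, norm_pow, div_le_iff₀ (by positivity)]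
  have := norm_nonneg β
  have h2 : 1 / 256 ≤ ‖z‖ ^ 2 := by nlinarith
  nlinarith

theorem div_sq_lt {β z : ℂ} (hβ : ‖β‖ ≤ 1 / 4096) (hz0 : 1 / 16 ≤ ‖z‖) : ‖β / z ^ 2‖ < 1 := by
  have := norm_div_sq (β := β) hz0
  linarith

theorem conj_mul_lt {β z : ℂ} (hβ : ‖β‖ ≤ 1 / 4096) (hz1 : ‖z‖ ≤ 1) :
    ‖(starRingEnd ℂ) β * z ^ 2‖ < 1 := by
  have := norm_conj_mul_sq hβ hz1
  linarith

theorem psi_sq {β z : ℂ} (hβ : ‖β‖ ≤ 1 / 4096) (hz0 : 1 / 16 ≤ ‖z‖) (hz1 : ‖z‖ ≤ 1) :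
    psi β z ^ 2 = (z ^ 2 + β) / (1 + (starRingEnd ℂ) β * z ^ 2) := by
  have h1 := one_add_ne (div_sq_lt hβ hz0)
  have h2 := one_add_ne (conj_mul_lt hβ hz1)
  have hz : z ≠ 0 := by
    rw [← norm_pos_iff]
    linarith
  rw [psi, mul_pow, div_pow, rt_sq h1, rt_sq h2]
  field_simp

/-- `psi β z = z * (1 + small)` -/
theorem psi_ratio {β z : ℂ} (hβ : ‖β‖ ≤ 1 / 4096) (hz0 : 1 / 16 ≤ ‖z‖) (hz1 : ‖z‖ ≤ 1) :
    ‖rt (1 + β / z ^ 2) / rt (1 + (starRingEnd ℂ) β * z ^ 2) - 1‖ ≤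
      (1 + 1 / 4000) * (‖β / z ^ 2‖ + ‖(starRingEnd ℂ) β * z ^ 2‖) := by
  have h1 := rt_sub_one (one_add_ne (div_sq_lt hβ hz0))
  have h2 := rt_sub_one (one_add_ne (conj_mul_lt hβ hz1))
  have h3 := norm_conj_mul_sq hβ hz1
  have h4 : 4095 / 4096 ≤ ‖rt (1 + (starRingEnd ℂ) β * z ^ 2)‖ := by
    have h5 : ‖(1:ℂ)‖ - ‖rt (1 + (starRingEnd ℂ) β * z ^ 2) - 1‖ ≤
        ‖(1:ℂ) + (rt (1 + (starRingEnd ℂ) β * z ^ 2) - 1)‖ := by
      have := norm_sub_norm_le (1:ℂ) (-(rt (1 + (starRingEnd ℂ) β * z ^ 2) - 1))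
      rwa [norm_neg, sub_neg_eq_add] at this
    rw [norm_one, add_sub_cancel] at h5
    linarith
  have h6 : rt (1 + β / z ^ 2) / rt (1 + (starRingEnd ℂ) β * z ^ 2) - 1 =
      ((rt (1 + β / z ^ 2) - 1) - (rt (1 + (starRingEnd ℂ) β * z ^ 2) - 1)) /
        rt (1 + (starRingEnd ℂ) β * z ^ 2) := by
    have := rt_ne (1 + (starRingEnd ℂ) β * z ^ 2)
    rw [sub_sub_sub_cancel_right, sub_div, div_self this]
  rw [h6, norm_div, div_le_iff₀ (by linarith)]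
  have h7 := norm_sub_le (rt (1 + β / z ^ 2) - 1) (rt (1 + (starRingEnd ℂ) β * z ^ 2) - 1)
  have h8 := norm_nonneg (β / z ^ 2)
  have h9 := norm_nonneg ((starRingEnd ℂ) β * z ^ 2)
  nlinarith

theorem psi_sub_le' {β z : ℂ} (hβ : ‖β‖ ≤ 1 / 4096) (hz0 : 1 / 16 ≤ ‖z‖) (hz1 : ‖z‖ ≤ 1) :
    ‖psi β z - z‖ ≤ (1 + 1 / 4000) * (‖β‖ / ‖z‖ + ‖β‖ * ‖z‖ ^ 3) := by
  have h1 := psi_ratio hβ hz0 hz1
  have h2 : psi β z - z = z * (rt (1 + β / z ^ 2) / rt (1 + (starRingEnd ℂ) β * z ^ 2) - 1) := by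
    rw [psi]
    ring
  rw [h2, norm_mul]
  have hz : 0 < ‖z‖ := by linarith
  have h3 : ‖z‖ * (‖β / z ^ 2‖ + ‖(starRingEnd ℂ) β * z ^ 2‖) = ‖β‖ / ‖z‖ + ‖β‖ * ‖z‖ ^ 3 := by
    rw [norm_div, norm_pow, norm_mul, RCLike.norm_conj, norm_pow]
    field_simp
  calc ‖z‖ * ‖rt (1 + β / z ^ 2) / rt (1 + (starRingEnd ℂ) β * z ^ 2) - 1‖ ≤
      ‖z‖ * ((1 + 1 / 4000) * (‖β / z ^ 2‖ + ‖(starRingEnd ℂ) β * z ^ 2‖)) := by gcongr
    _ = (1 + 1 / 4000) * (‖z‖ * (‖β / z ^ 2‖ + ‖(starRingEnd ℂ) β * z ^ 2‖)) := by ring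
    _ = _ := by rw [h3]

theorem psi_sub_le {β z : ℂ} (hβ : ‖β‖ ≤ 1 / 4096) (hz0 : 1 / 16 ≤ ‖z‖) (hz1 : ‖z‖ ≤ 1) :
    ‖psi β z - z‖ ≤ 18 * ‖β‖ := by
  refine (psi_sub_le' hβ hz0 hz1).trans ?_
  have hz : 0 < ‖z‖ := by linarith
  have hb := norm_nonneg β
  have h1 : ‖β‖ / ‖z‖ ≤ 16 * ‖β‖ := by
    rw [div_le_iff₀ hz]
    nlinarith
  have h2 : ‖z‖ ^ 3 ≤ 1 := pow_le_one₀ hz.le hz1
  have h3 : ‖β‖ * ‖z‖ ^ 3 ≤ ‖β‖ := by nlinarith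
  nlinarith

theorem psi_sub_lt {β z : ℂ} (hβ : ‖β‖ ≤ 1 / 4096) (hz0 : 1 / 16 ≤ ‖z‖) (hz1 : ‖z‖ ≤ 1) :
    ‖psi β z - z‖ < 1 / 200 := by
  have := psi_sub_le hβ hz0 hz1
  linarith

/-- the factor has positive real part -/
theorem psi_ratio_lt {β z : ℂ} (hβ : ‖β‖ ≤ 1 / 4096) (hz0 : 1 / 16 ≤ ‖z‖) (hz1 : ‖z‖ ≤ 1) :
    ‖rt (1 + β / z ^ 2) / rt (1 + (starRingEnd ℂ) β * z ^ 2) - 1‖ < 1 / 8 := by
  have h1 := psi_ratio hβ hz0 hz1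
  have h2 := norm_div_sq (β := β) hz0
  have h3 := norm_conj_mul_sq hβ hz1
  linarith

theorem normSq_psi {β z : ℂ} (hβ : ‖β‖ ≤ 1 / 4096) (hz0 : 1 / 16 ≤ ‖z‖) (hz1 : ‖z‖ ≤ 1) :
    1 - ‖psi β z‖ ^ 4 = (1 - ‖β‖ ^ 2) * (1 - ‖z‖ ^ 4) / ‖1 + (starRingEnd ℂ) β * z ^ 2‖ ^ 2 := by
  have h2 := one_add_ne (conj_mul_lt hβ hz1)
  have h3 : ‖psi β z‖ ^ 4 = ‖z ^ 2 + β‖ ^ 2 / ‖1 + (starRingEnd ℂ) β * z ^ 2‖ ^ 2 := by
    have h4 : ‖psi β z‖ ^ 4 = ‖psi β z ^ 2‖ ^ 2 := by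
      rw [norm_pow]
      ring
    rw [h4, psi_sq hβ hz0 hz1, norm_div, div_pow]
  have h5 : ‖1 + (starRingEnd ℂ) β * z ^ 2‖ ^ 2 ≠ 0 := by
    have := norm_pos_iff.mpr h2
    positivity
  rw [h3, eq_div_iff h5, sub_mul, div_mul_cancel₀ _ h5]
  have h6 : ∀ u : ℂ, ‖u‖ ^ 2 = u.re ^ 2 + u.im ^ 2 := fun u => by
    rw [← Complex.normSq_eq_norm_sq, Complex.normSq_apply]
    ring
  have h7 : ‖z‖ ^ 4 = ‖z ^ 2‖ ^ 2 := by
    rw [norm_pow]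
    ring
  rw [h7, h6, h6, h6, h6]
  generalize z ^ 2 = u
  simp only [Complex.add_re, Complex.one_re, Complex.mul_re, Complex.conj_re, Complex.conj_im,
    Complex.add_im, Complex.one_im, Complex.mul_im]
  ring

theorem psi_lt_one {β z : ℂ} (hβ : ‖β‖ ≤ 1 / 4096) (hz0 : 1 / 16 ≤ ‖z‖) (hz1 : ‖z‖ < 1) :
    ‖psi β z‖ < 1 := by
  have h1 := normSq_psi hβ hz0 hz1.le
  have h2 := norm_pos_iff.mpr (one_add_ne (conj_mul_lt hβ hz1.le))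
  have h3 : 0 < (1 - ‖β‖ ^ 2) * (1 - ‖z‖ ^ 4) / ‖1 + (starRingEnd ℂ) β * z ^ 2‖ ^ 2 := by
    have h4 : ‖z‖ ^ 4 < 1 := pow_lt_one₀ (norm_nonneg _) hz1 (by norm_num)
    have h5 : ‖β‖ ^ 2 < 1 := by
      have := norm_nonneg β
      nlinarith
    have h6 : 0 < 1 - ‖z‖ ^ 4 := by linarith
    have h7 : 0 < 1 - ‖β‖ ^ 2 := by linarith
    positivity
  have h8 : ‖psi β z‖ ^ 4 < 1 := by linarith
  by_contra h9
  push Not at h9
  have : 1 ≤ ‖psi β z‖ ^ 4 := one_le_pow₀ h9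
  linarith

theorem psi_differentiableAt {β z : ℂ} (hβ : ‖β‖ ≤ 1 / 4096) (hz0 : 1 / 16 ≤ ‖z‖)
    (hz1 : ‖z‖ ≤ 1) : DifferentiableAt ℂ (psi β) z := by
  have hz : z ≠ 0 := by
    rw [← norm_pos_iff]
    linarith
  have h1 : DifferentiableAt ℂ (fun z : ℂ => 1 + β / z ^ 2) z :=
    ((differentiableAt_const β).div (differentiableAt_pow 2) (pow_ne_zero 2 hz)).const_add 1
  have h2 : DifferentiableAt ℂ (fun z : ℂ => 1 + (starRingEnd ℂ) β * z ^ 2) z :=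
    ((differentiableAt_pow 2).const_mul _).const_add 1
  have h3 : DifferentiableAt ℂ (fun z : ℂ => rt (1 + β / z ^ 2)) z :=
    DifferentiableAt.comp (g := rt) z
      (rt_differentiableAt (one_add_mem_slit (div_sq_lt hβ hz0))) h1
  have h4 : DifferentiableAt ℂ (fun z : ℂ => rt (1 + (starRingEnd ℂ) β * z ^ 2)) z :=
    DifferentiableAt.comp (g := rt) z
      (rt_differentiableAt (one_add_mem_slit (conj_mul_lt hβ hz1))) h2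
  exact differentiableAt_id.mul (h3.div h4 (rt_ne _))

/-- `psi (-β)` is the inverse of `psi β` -/
theorem psi_psi {β z : ℂ} (hβ : ‖β‖ ≤ 1 / 4096) (hz0 : 1 / 8 ≤ ‖z‖) (hz1 : ‖z‖ < 1) :
    psi (-β) (psi β z) = z := by
  have hz0' : 1 / 16 ≤ ‖z‖ := by linarith
  have hz : z ≠ 0 := by
    rw [← norm_pos_iff]
    linarith
  have h1 := psi_sub_lt hβ hz0' hz1.le
  have h2 := psi_lt_one hβ hz0' hz1
  have h3 : 1 / 16 ≤ ‖psi β z‖ := by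
    have := norm_sub_norm_le z (psi β z)
    rw [norm_sub_rev] at this
    linarith
  have hβ' : ‖-β‖ ≤ 1 / 4096 := by rwa [norm_neg]
  set y := psi β z with hy
  have e1 : psi (-β) y ^ 2 = z ^ 2 := by
    rw [psi_sq hβ' h3 h2.le, map_neg, hy, psi_sq hβ hz0' hz1.le]
    have g1 := one_add_ne (conj_mul_lt hβ hz1.le)
    have g2 : 1 - β * (starRingEnd ℂ) β ≠ 0 := by
      have g3 : ‖-(β * (starRingEnd ℂ) β)‖ < 1 := by
        rw [norm_neg, norm_mul, RCLike.norm_conj]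
        have := norm_nonneg β
        nlinarith
      have := one_add_ne g3
      rwa [← sub_eq_add_neg] at this
    have g4 : 1 + -(starRingEnd ℂ) β * ((z ^ 2 + β) / (1 + (starRingEnd ℂ) β * z ^ 2)) =
        (1 - β * (starRingEnd ℂ) β) / (1 + (starRingEnd ℂ) β * z ^ 2) := by
      rw [mul_div_assoc', add_comm (1:ℂ), div_add' _ _ _ g1]
      congr 1
      ring
    rw [g4]
    have g5 : (z ^ 2 + β) / (1 + (starRingEnd ℂ) β * z ^ 2) + -β =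
        z ^ 2 * (1 - β * (starRingEnd ℂ) β) / (1 + (starRingEnd ℂ) β * z ^ 2) := by
      rw [div_add' _ _ _ g1]
      congr 1
      ring
    rw [g5, div_div_div_cancel_right₀ g1, mul_div_cancel_right₀ _ g2]
  rcases sq_eq_sq_iff_eq_or_eq_neg.mp e1 with h | h
  · exact h
  · exfalso
    have h4 := psi_sub_lt hβ' h3 h2.le
    rw [h] at h4
    have h5 : ‖(2:ℂ) * z‖ ≤ ‖-z - y‖ + ‖y - z‖ := by
      have : (2:ℂ) * z = -((-z - y) + (y - z)) := by ring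
      rw [this, norm_neg]
      exact norm_add_le _ _
    rw [norm_mul] at h5
    have h6 : ‖(2:ℂ)‖ = 2 := by simp
    rw [h6] at h5
    linarith

end Pool.Agent.Helper79.IV
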